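import Pool.Agent.Helper97.RE.Paths

/-!
# Piece U2 of `upper_main` (S07133): the sets `W0` and `A'`
-/

set_option autoImplicit false
set_option linter.unusedSectionVars false

namespace Pool.Agent.Helper97.RE

open Finset Classical

section aux

variable {W : Type*} [Fintype W] [DecidableEq W]

/-- the set of good `b` for `w` -/
noncomputable def waF (G : SimpleGraph W) [DecidableRel G.Adj] (j r : ℕ) (t w : W) : Finset W :=
  {b ∈ G.neighborFinset t | Rich G j r w b}

theorem waF_card_le (G : SimpleGraph W) [DecidableRel G.Adj] (j r : ℕ) (t w : W) :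
    #(waF G j r t w) ≤ G.degree t := by
  rw [← SimpleGraph.card_neighborFinset_eq_degree]
  exact card_filter_le _ _

/-- the clean paths from `w` to `t` -/
noncomputable def waP (G : SimpleGraph W) (J : ℕ) (Cl : (Fin (J + 1) → W) → Prop) (t w : W) :
    Finset (Fin (J + 1) → W) :=
  {p ∈ PP G J | Cl p ∧ p 0 = w ∧ p (Fin.last J) = t}

theorem waP_sum_le (G : SimpleGraph W) [DecidableRel G.Adj] (J : ℕ)
    (Cl : (Fin (J + 1) → W) → Prop) (t : W) (Δ : ℕ) (hΔ : ∀ w, G.degree w ≤ Δ) :
    ∑ w, #(waP G J Cl t w) ≤ Δ ^ J := by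
  have h := card_paths_last G Δ (fun w => by convert hΔ w) J t
  refine le_trans ?_ h
  have h1 : ∀ w, waP G J Cl t w = {p ∈ ({p ∈ PP G J | Cl p ∧ p (Fin.last J) = t} :
      Finset (Fin (J + 1) → W)) | p 0 = w} := by
    intro w
    ext p
    simp only [waP, mem_filter]
    tauto
  simp only [h1]
  rw [← Finset.card_eq_sum_card_fiberwise (fun _ _ => mem_coe.2 (mem_univ _))]
  refine card_le_card ?_
  intro p hp
  rw [mem_filter] at hp ⊢
  exact ⟨hp.1, hp.2.2⟩

/-- the set of `b` in `N(t)` reached from `a` by a `J`-path -/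
noncomputable def waG (G : SimpleGraph W) [DecidableRel G.Adj] (J : ℕ) (t a : W) : Finset W :=
  {b ∈ G.neighborFinset t | ∃ q : Fin (J + 1) → W, IsPath G q ∧ q 0 = a ∧ q (Fin.last J) = b}

theorem waG_card_le (G : SimpleGraph W) [DecidableRel G.Adj] (J : ℕ) (t a : W) :
    #(waG G J t a) ≤ G.degree t := by
  rw [← SimpleGraph.card_neighborFinset_eq_degree]
  exact card_filter_le _ _

theorem waG_sum_le (G : SimpleGraph W) [DecidableRel G.Adj] (J : ℕ) (t : W) (Δ : ℕ)
    (hΔ : ∀ w, G.degree w ≤ Δ) : ∑ a, #(waG G J t a) ≤ Δ ^ (J + 1) := by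
  have h0 : ∀ b, #{a | ∃ q : Fin (J + 1) → W, IsPath G q ∧ q 0 = a ∧ q (Fin.last J) = b}
      ≤ Δ ^ J := by
    intro b
    refine le_trans ?_ (card_paths_last G Δ (fun w => by convert hΔ w) J b)
    refine le_trans (card_le_card ?_) (card_image_le (f := fun p : Fin (J + 1) → W => p 0))
    intro a ha
    rw [mem_filter] at ha
    obtain ⟨_, q, h1, h2, h3⟩ := ha
    rw [mem_image]
    exact ⟨q, mem_filter.2 ⟨mem_PP.2 h1, h3⟩, h2⟩
  have h1 : ∑ a, #(waG G J t a) = ∑ b ∈ G.neighborFinset t,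
      #{a | ∃ q : Fin (J + 1) → W, IsPath G q ∧ q 0 = a ∧ q (Fin.last J) = b} := by
    simp only [waG, card_filter]
    rw [sum_comm]
  rw [h1]
  refine (sum_le_card_nsmul _ _ _ (fun b _ => h0 b)).trans ?_
  rw [smul_eq_mul, SimpleGraph.card_neighborFinset_eq_degree, pow_succ, mul_comm (Δ ^ J)]
  exact Nat.mul_le_mul_right _ (hΔ t)

/-- a rich pair gives many first steps -/
theorem wa_rich_steps (G : SimpleGraph W) [DecidableRel G.Adj] (J r : ℕ) (hJ : 1 ≤ J) (t w b : W)
    (hr : Rich G (J + 1) r w b) :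
    r ≤ #{a ∈ G.neighborFinset w | a ≠ t ∧
      ∃ q : Fin (J + 1) → W, IsPath G q ∧ q 0 = a ∧ q (Fin.last J) = b} := by
  by_contra hcon
  push Not at hcon
  set S : Finset W := {a ∈ G.neighborFinset w | a ≠ t ∧
      ∃ q : Fin (J + 1) → W, IsPath G q ∧ q 0 = a ∧ q (Fin.last J) = b} with hS
  obtain ⟨p, hp, hp0, hpl, hpi⟩ := hr (insert t S) ((card_insert_le _ _).trans (by omega))
  have h1 := hpi ⟨1, by omega⟩ (by
    intro h
    have := congrArg Fin.val h
    simp at this) (by
    intro h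
    have := congrArg Fin.val h
    simp at this
    omega)
  apply h1
  rw [mem_insert]
  by_cases ht : p ⟨1, by omega⟩ = t
  · exact Or.inl ht
  · right
    rw [hS, mem_filter, SimpleGraph.mem_neighborFinset]
    refine ⟨?_, ht, Fin.tail p, hp.tail, ?_, ?_⟩
    · have := hp.adj 0 (by omega)
      rw [← hp0]
      exact this
    · simp only [Fin.tail]
      congr 1
    · rw [← hpl]
      simp only [Fin.tail]
      congr 1

end aux

theorem exists_WA (J K E C : ℕ) (hJ : 1 ≤ J) (hK : 1 ≤ K) (hE : 1 ≤ E) (hC : 1 ≤ C) :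
    ∃ E1 : ℕ, 1 ≤ E1 ∧ ∀ D : ℕ, ∃ r0 : ℕ, ∀ r, r0 ≤ r →
    ∀ (W : Type) [Fintype W] [DecidableEq W] (G : SimpleGraph W) [DecidableRel G.Adj]
      (c : W → Bool) (d : ℕ), 1 ≤ d → (∀ a b, G.Adj a b → c a ≠ c b) →
      (∀ w, d ≤ G.degree w ∧ G.degree w ≤ K * d) →
      ∀ Cl : (Fin (J + 1) → W) → Prop,
      (∀ x y, #{p ∈ PP G J | Cl p ∧ p 0 = x ∧ p (Fin.last J) = y} ≤ C) →
      Fintype.card W * d ^ (J + 1) < E * #{p ∈ PP G (J + 1) |
        Cl (Fin.init p : Fin (J + 1) → W) ∧ Rich G (J + 1) r (p 0) (p (Fin.last (J + 1)))} →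
      ∃ (t : W) (W0 A' : Finset W), W0.Nonempty ∧
        (∀ w ∈ W0, ∃ p : Fin (J + 1) → W, IsPath G p ∧ p 0 = w ∧ p (Fin.last J) = t) ∧
        (∀ w ∈ W0, d ≤ E1 * #{b ∈ G.neighborFinset t | Rich G (J + 1) r w b}) ∧
        t ∉ A' ∧ (∀ a ∈ A', D ≤ #{w ∈ W0 | G.Adj a w}) ∧
        D * #W0 ≤ ∑ a ∈ A', #{w ∈ W0 | G.Adj a w} := by
  refine ⟨2 * E * K ^ J, ?_, ?_⟩
  · have : 1 ≤ K ^ J := Nat.one_le_pow _ _ hK
    nlinarith
  intro D
  set E1 := 2 * E * K ^ J with hE1
  have hE1pos : 1 ≤ E1 := by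
    have : 1 ≤ K ^ J := Nat.one_le_pow _ _ hK
    nlinarith
  refine ⟨E1 * D * K ^ (J + 1) * (2 * E * C * K) + E1 * K * D, ?_⟩
  intro r hr W _ _ G _ c d hd hc hdeg Cl hCl hbig
  -- choice of `t`
  obtain ⟨t, ht⟩ : ∃ t : W, d ^ (J + 1) < E * #{p ∈ ({p ∈ PP G (J + 1) |
        Cl (Fin.init p : Fin (J + 1) → W) ∧ Rich G (J + 1) r (p 0) (p (Fin.last (J + 1)))} :
        Finset (Fin (J + 1 + 1) → W)) | p (Fin.last J).castSucc = t} := by
    by_contra hcon
    push Not at hcon
    rw [Finset.card_eq_sum_card_fiberwise (f := fun p : Fin (J + 1 + 1) → W =>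
      p (Fin.last J).castSucc) (t := univ) (fun _ _ => mem_coe.2 (mem_univ _)), mul_sum] at hbig
    have := sum_le_card_nsmul univ _ _ (fun t _ => hcon t)
    rw [smul_eq_mul, Finset.card_univ] at this
    exact absurd hbig (not_lt.2 this)
  -- splitting according to the first vertex
  have hsplit : #{p ∈ ({p ∈ PP G (J + 1) |
        Cl (Fin.init p : Fin (J + 1) → W) ∧ Rich G (J + 1) r (p 0) (p (Fin.last (J + 1)))} :
        Finset (Fin (J + 1 + 1) → W)) | p (Fin.last J).castSucc = t} ≤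
      ∑ w, #(waP G J Cl t w) * #(waF G (J + 1) r t w) := by
    have h1 : ∀ w, #(waP G J Cl t w) * #(waF G (J + 1) r t w)
        = #(waP G J Cl t w ×ˢ waF G (J + 1) r t w) := fun w => (card_product _ _).symm
    simp only [h1]
    rw [← card_sigma]
    refine Finset.card_le_card_of_injOn
      (fun p => (⟨p 0, (Fin.init p, p (Fin.last (J + 1)))⟩ :
        (_ : W) × ((Fin (J + 1) → W) × W))) ?_ ?_
    · intro p hp
      rw [mem_coe, mem_filter, mem_filter, mem_PP] at hp
      obtain ⟨⟨h1, h2, h3⟩, h4⟩ := hp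
      rw [mem_coe, mem_sigma]
      refine ⟨mem_univ _, ?_⟩
      simp only
      rw [mem_product]
      refine ⟨mem_filter.2 ⟨mem_PP.2 h1.init, h2, rfl, h4⟩, mem_filter.2 ⟨?_, h3⟩⟩
      rw [SimpleGraph.mem_neighborFinset, ← h4]
      have := h1.2 (Fin.last J)
      rwa [Fin.succ_last] at this
    · intro p _ p' _ h
      simp only [Sigma.mk.injEq, heq_eq_eq, Prod.mk.injEq] at h
      rw [← Fin.snoc_init_self p, ← Fin.snoc_init_self p', h.2.1, h.2.2]
  set P : W → Prop := fun w => d ≤ E1 * #(waF G (J + 1) r t w) ∧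
    ∃ p : Fin (J + 1) → W, IsPath G p ∧ p 0 = w ∧ p (Fin.last J) = t with hP
  set W0 : Finset W := univ.filter P with hW0
  -- the small part
  have hsmall : 2 * (E * ∑ w ∈ univ.filter (fun w => ¬ P w),
      #(waP G J Cl t w) * #(waF G (J + 1) r t w)) ≤ d ^ (J + 1) := by
    have h1 : E1 * ∑ w ∈ univ.filter (fun w => ¬ P w),
        #(waP G J Cl t w) * #(waF G (J + 1) r t w) ≤ d * ∑ w, #(waP G J Cl t w) := by
      rw [mul_sum, mul_sum]
      refine le_trans (sum_le_sum (g := fun w => d * #(waP G J Cl t w)) ?_)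
        (sum_le_sum_of_subset (filter_subset _ _))
      intro w hw
      rw [mem_filter] at hw
      by_cases h0 : #(waP G J Cl t w) = 0
      · rw [h0]; simp
      · obtain ⟨q, hq⟩ := Finset.card_pos.1 (Nat.pos_of_ne_zero h0)
        rw [waP, mem_filter, mem_PP] at hq
        have h2 : ¬ d ≤ E1 * #(waF G (J + 1) r t w) := fun h =>
          hw.2 ⟨h, q, hq.1, hq.2.2.1, hq.2.2.2⟩
        have h3 : E1 * #(waF G (J + 1) r t w) ≤ d := (not_le.1 h2).le
        calc E1 * (#(waP G J Cl t w) * #(waF G (J + 1) r t w))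
            = (E1 * #(waF G (J + 1) r t w)) * #(waP G J Cl t w) := by ring
          _ ≤ d * #(waP G J Cl t w) := Nat.mul_le_mul_right _ h3
    have h2 := waP_sum_le G J Cl t (K * d) (fun w => (hdeg w).2)
    have h3 : K ^ J * (2 * (E * ∑ w ∈ univ.filter (fun w => ¬ P w),
        #(waP G J Cl t w) * #(waF G (J + 1) r t w))) ≤ K ^ J * d ^ (J + 1) := by
      have hX : ∀ X : ℕ, K ^ J * (2 * (E * X)) = E1 * X := fun X => by rw [hE1]; ring
      calc _ = E1 * ∑ w ∈ univ.filter (fun w => ¬ P w),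
            #(waP G J Cl t w) * #(waF G (J + 1) r t w) := hX _
        _ ≤ d * ∑ w, #(waP G J Cl t w) := h1
        _ ≤ d * (K * d) ^ J := Nat.mul_le_mul_left _ h2
        _ = K ^ J * d ^ (J + 1) := by rw [mul_pow, pow_succ]; ring
    exact Nat.le_of_mul_le_mul_left h3 (Nat.pow_pos hK)
  -- the large part
  have hlarge : ∑ w ∈ W0, #(waP G J Cl t w) * #(waF G (J + 1) r t w) ≤ #W0 * (C * (K * d)) := by
    refine (sum_le_card_nsmul _ _ (C * (K * d)) ?_).trans (le_of_eq (smul_eq_mul _ _))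
    intro w _
    refine Nat.mul_le_mul (hCl w t) ((waF_card_le G _ _ _ _).trans (hdeg t).2)
  have hsum : ∑ w, #(waP G J Cl t w) * #(waF G (J + 1) r t w)
      = ∑ w ∈ W0, #(waP G J Cl t w) * #(waF G (J + 1) r t w)
        + ∑ w ∈ univ.filter (fun w => ¬ P w), #(waP G J Cl t w) * #(waF G (J + 1) r t w) :=
    (sum_filter_add_sum_filter_not univ P _).symm
  have hW0big : d ^ J ≤ 2 * E * C * K * #W0 := by
    have h1 : d ^ (J + 1) < 2 * (E * (#W0 * (C * (K * d)))) := by
      have h2 : E * (∑ w, #(waP G J Cl t w) * #(waF G (J + 1) r t w))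
          ≤ E * (#W0 * (C * (K * d))) + E * ∑ w ∈ univ.filter (fun w => ¬ P w),
            #(waP G J Cl t w) * #(waF G (J + 1) r t w) := by
        rw [hsum, mul_add]
        exact Nat.add_le_add_right (Nat.mul_le_mul_left _ hlarge) _
      have h3 := Nat.mul_le_mul_left E hsplit
      omega
    have h4 : d * d ^ J ≤ d * (2 * E * C * K * #W0) := by
      calc d * d ^ J = d ^ (J + 1) := by rw [pow_succ]; ring
        _ ≤ 2 * (E * (#W0 * (C * (K * d)))) := h1.le
        _ = d * (2 * E * C * K * #W0) := by ring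
    exact Nat.le_of_mul_le_mul_left h4 hd
  have hW0ne : W0.Nonempty := by
    rw [← Finset.card_pos]
    by_contra h
    have h0 : #W0 = 0 := by omega
    rw [h0, mul_zero] at hW0big
    have : 1 ≤ d ^ J := Nat.one_le_pow _ _ hd
    omega
  set A' : Finset W := univ.filter (fun a => a ≠ t ∧ D ≤ #{w ∈ W0 | G.Adj a w}) with hA'
  refine ⟨t, W0, A', hW0ne, ?_, ?_, ?_, ?_, ?_⟩
  · intro w hw
    exact (mem_filter.1 hw).2.2
  · intro w hw
    exact (mem_filter.1 hw).2.1
  · intro h
    exact (mem_filter.1 h).2.1 rfl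
  · intro a ha
    exact (mem_filter.1 ha).2.2
  · -- the double counting
    set S : W → Finset W := fun w => univ.filter (fun a => a ≠ t ∧ G.Adj a w) with hS
    have s1 : ∀ w ∈ W0, r * d ≤ E1 * ∑ a ∈ S w, #(waG G J t a) := by
      intro w hw
      have hw1 := (mem_filter.1 hw).2.1
      have h1 : r * #(waF G (J + 1) r t w) ≤ ∑ a ∈ S w, #(waG G J t a) := by
        have h2 : ∑ b ∈ waF G (J + 1) r t w, #{a ∈ G.neighborFinset w | a ≠ t ∧
            ∃ q : Fin (J + 1) → W, IsPath G q ∧ q 0 = a ∧ q (Fin.last J) = b} ≤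
            ∑ a ∈ S w, #(waG G J t a) := by
          have h3 : ∀ b, #{a ∈ G.neighborFinset w | a ≠ t ∧
              ∃ q : Fin (J + 1) → W, IsPath G q ∧ q 0 = a ∧ q (Fin.last J) = b} =
              ∑ a ∈ S w, if ∃ q : Fin (J + 1) → W, IsPath G q ∧ q 0 = a ∧ q (Fin.last J) = b
                then 1 else 0 := by
            intro b
            rw [← card_filter]
            congr 1
            ext a
            simp only [hS, mem_filter, SimpleGraph.mem_neighborFinset, mem_univ, true_and]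
            rw [G.adj_comm]
            tauto
          simp only [h3]
          rw [sum_comm]
          refine sum_le_sum ?_
          intro a _
          rw [← card_filter]
          refine card_le_card ?_
          intro b hb
          rw [mem_filter] at hb
          exact mem_filter.2 ⟨(mem_filter.1 hb.1).1, hb.2⟩
        refine le_trans ?_ h2
        rw [mul_comm]
        refine (le_of_eq (smul_eq_mul _ _).symm).trans (card_nsmul_le_sum _ _ _ ?_)
        intro b hb
        exact wa_rich_steps G J r hJ t w b (mem_filter.1 hb).2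
      calc r * d ≤ r * (E1 * #(waF G (J + 1) r t w)) := Nat.mul_le_mul_left _ hw1
        _ = E1 * (r * #(waF G (J + 1) r t w)) := by ring
        _ ≤ _ := Nat.mul_le_mul_left _ h1
    have s2 : #W0 * (r * d) ≤ E1 * ∑ w ∈ W0, ∑ a ∈ S w, #(waG G J t a) := by
      rw [mul_sum]
      exact (le_of_eq (smul_eq_mul _ _).symm).trans (card_nsmul_le_sum _ _ _ s1)
    have s3 : ∑ w ∈ W0, ∑ a ∈ S w, #(waG G J t a)
        = ∑ a ∈ univ.filter (fun a => a ≠ t), #{w ∈ W0 | G.Adj a w} * #(waG G J t a) := by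
      rw [Finset.sum_comm' (t' := univ.filter (fun a => a ≠ t))
        (s' := fun a => {w ∈ W0 | G.Adj a w})]
      · refine sum_congr rfl ?_
        intro a _
        rw [sum_const, smul_eq_mul]
      · intro w a
        simp only [hS, mem_filter, mem_univ, true_and]
        tauto
    have s4 : ∑ a ∈ univ.filter (fun a => a ≠ t), #{w ∈ W0 | G.Adj a w} * #(waG G J t a)
        ≤ (K * d) * ∑ a ∈ A', #{w ∈ W0 | G.Adj a w} + D * (K * d) ^ (J + 1) := by
      have h1 : ∀ a ∈ univ.filter (fun a => a ≠ t), #{w ∈ W0 | G.Adj a w} * #(waG G J t a)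
          ≤ (if a ∈ A' then (K * d) * #{w ∈ W0 | G.Adj a w} else 0) + D * #(waG G J t a) := by
        intro a ha
        by_cases haA : a ∈ A'
        · rw [if_pos haA]
          have h2 := (waG_card_le G J t a).trans (hdeg t).2
          calc _ ≤ #{w ∈ W0 | G.Adj a w} * (K * d) := Nat.mul_le_mul_left _ h2
            _ = K * d * #{w ∈ W0 | G.Adj a w} := by ring
            _ ≤ _ := Nat.le_add_right _ _
        · rw [if_neg haA, zero_add]
          refine Nat.mul_le_mul_right _ ?_
          by_contra hcon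
          exact haA (mem_filter.2 ⟨mem_univ _, (mem_filter.1 ha).2, by omega⟩)
      refine (sum_le_sum h1).trans ?_
      rw [sum_add_distrib]
      refine Nat.add_le_add ?_ ?_
      · rw [← sum_filter, mul_sum]
        refine le_of_eq (sum_congr ?_ (fun _ _ => rfl))
        ext a
        simp only [mem_filter, mem_univ, true_and]
        constructor
        · intro h; exact h.2
        · intro h; exact ⟨(mem_filter.1 h).2.1, h⟩
      · rw [← mul_sum]
        refine Nat.mul_le_mul_left _ ?_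
        refine le_trans ?_ (waG_sum_le G J t (K * d) (fun w => (hdeg w).2))
        exact sum_le_sum_of_subset (filter_subset _ _)
    set T := ∑ a ∈ A', #{w ∈ W0 | G.Adj a w} with hT
    have s5 : #W0 * (r * d) ≤ E1 * ((K * d) * T + D * (K * d) ^ (J + 1)) :=
      s2.trans (Nat.mul_le_mul_left _ (s3.le.trans s4))
    have s6 : E1 * (D * (K * d) ^ (J + 1))
        ≤ d * (E1 * D * K ^ (J + 1) * (2 * E * C * K)) * #W0 := by
      calc E1 * (D * (K * d) ^ (J + 1)) = d * (E1 * D * K ^ (J + 1)) * d ^ J := by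
            rw [mul_pow, pow_succ d]; ring
        _ ≤ d * (E1 * D * K ^ (J + 1)) * (2 * E * C * K * #W0) := Nat.mul_le_mul_left _ hW0big
        _ = _ := by ring
    have s7 : (E1 * K * d) * (D * #W0) ≤ (E1 * K * d) * T := by
      have h1 : #W0 * ((E1 * D * K ^ (J + 1) * (2 * E * C * K) + E1 * K * D) * d)
          ≤ #W0 * (r * d) := Nat.mul_le_mul_left _ (Nat.mul_le_mul_right _ hr)
      have h2 : #W0 * ((E1 * D * K ^ (J + 1) * (2 * E * C * K) + E1 * K * D) * d)
          = d * (E1 * D * K ^ (J + 1) * (2 * E * C * K)) * #W0 + (E1 * K * d) * (D * #W0) := by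
        ring
      have h3 : E1 * ((K * d) * T + D * (K * d) ^ (J + 1))
          = (E1 * K * d) * T + E1 * (D * (K * d) ^ (J + 1)) := by ring
      omega
    have hpos : 0 < E1 * K * d := by positivity
    exact Nat.le_of_mul_le_mul_left s7 hpos

end Pool.Agent.Helper97.RE
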